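import Pool.Agent.Helper75.PZ.GoalsA

namespace Pool.Agent.Helper51.PZ

open Finset Filter Topology Pool.Agent.Helper75.PZ

lemma gam_self {M : Type} (P : M → M → ℕ → M) (T : M → M → ℕ → ℝ) (N n : ℕ) (x : M) (u : ℝ) :
    Gam P T N n x x u = x := by
  cases n <;> simp [Gam]

lemma aux_f1 {s a v : ℝ} (hs : 0 < s) (hs1 : s ≤ 1) (ha : 0 ≤ a) (hav : a ≤ v) (hv : v ≤ 1) :
    s * a + (v - a) ^ s ≤ v ^ s := by
  rcases eq_or_lt_of_le (ha.trans hav) with h0 | h0
  · have : a = 0 := le_antisymm (by rw [h0]; exact hav) ha
    subst this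
    simp
  · have hr : a / v ≤ 1 := (div_le_one h0).2 hav
    have e1 : v - a = v * (1 + -(a / v)) := by field_simp; ring
    have e2 : (v - a) ^ s = v ^ s * (1 + -(a / v)) ^ s := by
      rw [e1, Real.mul_rpow h0.le (by linarith)]
    have h1 : (1 + -(a / v)) ^ s ≤ 1 + s * -(a / v) :=
      _root_.rpow_one_add_le_one_add_mul_self (by linarith) hs.le hs1
    have h2 : v ≤ v ^ s := by
      have := Real.rpow_le_rpow_of_exponent_ge h0 hv hs1
      rwa [Real.rpow_one] at this
    have h3 : 0 ≤ v ^ s := Real.rpow_nonneg h0.le s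
    have h4 : v ^ s * (1 + -(a / v)) ^ s ≤ v ^ s * (1 + s * -(a / v)) :=
      mul_le_mul_of_nonneg_left h1 h3
    have h5 : s * a = v * (s * (a / v)) := by field_simp
    have h6 : v * (s * (a / v)) ≤ v ^ s * (s * (a / v)) :=
      mul_le_mul_of_nonneg_right h2 (by positivity)
    rw [e2]
    nlinarith

lemma aux_F1 {s a b : ℝ} (hs : 0 < s) (hs1 : s ≤ 1) (ha : 0 ≤ a) (hb : 0 ≤ b) :
    a ^ s + b ^ s ≤ 2 ^ (1 - s) * (a + b) ^ s := by
  have h := (Real.concaveOn_rpow hs.le hs1).2 (Set.mem_Ici.2 ha) (Set.mem_Ici.2 hb)
    (by norm_num : (0 : ℝ) ≤ 1 / 2) (by norm_num : (0 : ℝ) ≤ 1 / 2) (by norm_num)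
  simp only [smul_eq_mul] at h
  have e1 : (1 / 2 * a + 1 / 2 * b) ^ s = (a + b) ^ s * (2 : ℝ) ^ (-s) := by
    rw [show 1 / 2 * a + 1 / 2 * b = (a + b) * (2 : ℝ)⁻¹ by ring,
      Real.mul_rpow (by linarith) (by norm_num), Real.inv_rpow (by norm_num),
      Real.rpow_neg (by norm_num)]
  have e2 : (2 : ℝ) ^ (1 - s) = 2 * 2 ^ (-s) := by
    rw [sub_eq_add_neg, Real.rpow_add (by norm_num), Real.rpow_one]
  rw [e1] at h
  rw [e2]
  nlinarith

theorem gam (hCAT : P_CAT) : P_GAM := by
  intro M _ R k K s N P T hk0 hk1 hK hs hs1 hR n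
  induction n with
  | zero =>
    intro x y hxy
    have hD : 0 ≤ dist x y := dist_nonneg
    have hKs : 0 ≤ K / s := div_nonneg hK hs.le
    refine ⟨fun u hu => ?_, fun u hu => ?_, fun u hu => ?_, fun u hu => ?_, fun u v huv => ?_⟩
    · simp only [Gam]; rw [if_pos (by linarith)]
    · simp only [Gam]; rw [if_neg (by linarith)]
    · have h1 : 0 ≤ K / s * u ^ s := mul_nonneg hKs (Real.rpow_nonneg hu s)
      have h2 : 0 ≤ dist x y * (K / s * u ^ s) := mul_nonneg hD h1
      simp only [Gam, pow_zero]
      split_ifs
      · rw [dist_self]; nlinarith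
      · nlinarith
    · have h1 : 0 ≤ K / s * (1 - u) ^ s := mul_nonneg hKs (Real.rpow_nonneg (by linarith) s)
      have h2 : 0 ≤ dist x y * (K / s * (1 - u) ^ s) := mul_nonneg hD h1
      simp only [Gam, pow_zero]
      split_ifs
      · nlinarith
      · rw [dist_self]; nlinarith
    · have h1 : 0 ≤ 2 ^ (1 - s) * (K / s) * (v - u) ^ s :=
        mul_nonneg (mul_nonneg (Real.rpow_nonneg (by norm_num) _) hKs)
          (Real.rpow_nonneg (by linarith) s)
      have h2 : 0 ≤ dist x y * (2 ^ (1 - s) * (K / s) * (v - u) ^ s) := mul_nonneg hD h1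
      simp only [Gam, pow_zero]
      split_ifs
      · rw [dist_self]; nlinarith
      · nlinarith
      · rw [dist_comm]; nlinarith
      · rw [dist_self]; nlinarith
  | succ n ih =>
    intro x y hxyR
    have hD : 0 ≤ dist x y := dist_nonneg
    have hKs : 0 ≤ K / s := div_nonneg hK hs.le
    have hkn : 0 ≤ k ^ (n + 1) := pow_nonneg hk0 _
    by_cases hxy : x = y
    · subst hxy
      simp only [gam_self, dist_self, zero_mul, le_refl, implies_true, and_self]
    set D := dist x y with hDdef
    have hP0 := hR.P0 x y hxy hxyR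
    have hPN := hR.PN x y hxy hxyR
    have hT0 := hR.T0 x y hxy hxyR
    have hT1 := hR.T1 x y hxy hxyR
    have hhk := hR.hk x y hxy hxyR
    have hhs := hR.hs x y hxy hxyR
    have hhK := hR.hK x y hxy hxyR
    set p := P x y with hp
    set t := T x y with ht
    have haR : ∀ i < N, dist (p i) (p (i + 1)) ≤ R := by
      intro i hi
      have := hhk i hi
      have h2 : k * D ≤ 1 * D := mul_le_mul_of_nonneg_right hk1 hD
      linarith
    have IH := fun i (hi : i < N) => ih (p i) (p (i + 1)) (haR i hi)
    have hzero : ∀ i < N, t i = 0 → p i = p (i + 1) := by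
      intro i hi h0
      have := hhs i hi
      rw [h0, Real.zero_rpow hs.ne', zero_mul] at this
      exact dist_le_zero.1 this
    have hkey : ∀ i < N, 0 < t i → ∀ c w : ℝ, 0 ≤ c → 0 ≤ w →
        dist (p i) (p (i + 1)) * (c * (w / t i) ^ s) ≤ D * (c * w ^ s) := by
      intro i hi hti c w hc hw
      have h1 := hhs i hi
      have h2 : 0 < t i ^ s := Real.rpow_pos_of_pos hti s
      rw [Real.div_rpow hw hti.le]
      have h3 : 0 ≤ c * (w ^ s / t i ^ s) :=
        mul_nonneg hc (div_nonneg (Real.rpow_nonneg hw s) h2.le)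
      calc dist (p i) (p (i + 1)) * (c * (w ^ s / t i ^ s))
          ≤ (t i ^ s * D) * (c * (w ^ s / t i ^ s)) := mul_le_mul_of_nonneg_right h1 h3
        _ = D * (c * w ^ s) := by field_simp
    have hkey2 : ∀ i < N, ∀ j : ℝ, 0 ≤ j → dist (p i) (p (i + 1)) * (j * k ^ n)
        ≤ j * (k ^ (n + 1) * D) := by
      intro i hi j hj
      have h1 := hhk i hi
      calc dist (p i) (p (i + 1)) * (j * k ^ n) ≤ (k * D) * (j * k ^ n) :=
            mul_le_mul_of_nonneg_right h1 (mul_nonneg hj (pow_nonneg hk0 _))
        _ = j * (k ^ (n + 1) * D) := by ring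
    have hc2 : 0 ≤ (2 : ℝ) ^ (1 - s) * (K / s) :=
      mul_nonneg (Real.rpow_nonneg (by norm_num) _) hKs
    have hcat := hCAT M p t (fun i v => Gam P T N n (p i) (p (i + 1)) (v / t i)) N
      (fun a => D * (K / s * a ^ s)) (fun a => D * (2 ^ (1 - s) * (K / s) * a ^ s))
      (K * D) (k ^ (n + 1) * D) (2 * (k ^ (n + 1) * D))
      { t0 := hT0
        tot := hT1.le
        g0 := by
          intro i hi v hv
          exact (IH i hi).1 _ (div_nonpos_of_nonpos_of_nonneg hv (hT0 i hi))
        g1 := by
          intro i hi v hv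
          rcases eq_or_lt_of_le (hT0 i hi) with h0 | h0
          · have := hzero i hi h0.symm
            show Gam P T N n (p i) (p (i + 1)) (v / t i) = p (i + 1)
            rw [← this, gam_self]
          · exact (IH i hi).2.1 _ ((one_le_div h0).2 hv)
        gL := by
          intro i hi v hv
          show dist (p i) (Gam P T N n (p i) (p (i + 1)) (v / t i))
            ≤ D * (K / s * v ^ s) + k ^ (n + 1) * D
          rcases eq_or_lt_of_le (hT0 i hi) with h0 | h0
          · have := hzero i hi h0.symm
            rw [← this, gam_self, dist_self]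
            have := mul_nonneg hD (mul_nonneg hKs (Real.rpow_nonneg hv s))
            have := mul_nonneg hkn hD
            linarith
          · have h1 := (IH i hi).2.2.1 (v / t i) (div_nonneg hv h0.le)
            have h2 := hkey i hi h0 (K / s) v hKs hv
            have h3 := hkey2 i hi 1 zero_le_one
            nlinarith
        gR := by
          intro i hi v hv
          show dist (Gam P T N n (p i) (p (i + 1)) (v / t i)) (p (i + 1))
            ≤ D * (K / s * (t i - v) ^ s) + k ^ (n + 1) * D
          rcases eq_or_lt_of_le (hT0 i hi) with h0 | h0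
          · have := hzero i hi h0.symm
            rw [← this, gam_self, dist_self]
            have := mul_nonneg hD (mul_nonneg hKs (Real.rpow_nonneg (sub_nonneg.2 hv) s))
            have := mul_nonneg hkn hD
            linarith
          · have h1 := (IH i hi).2.2.2.1 (v / t i) ((div_le_one h0).2 hv)
            have h2 := hkey i hi h0 (K / s) (t i - v) hKs (sub_nonneg.2 hv)
            have e : 1 - v / t i = (t i - v) / t i := by field_simp
            rw [e] at h1
            have h3 := hkey2 i hi 1 zero_le_one
            nlinarith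
        gH := by
          intro i hi v v' hvv
          show dist (Gam P T N n (p i) (p (i + 1)) (v / t i))
              (Gam P T N n (p i) (p (i + 1)) (v' / t i))
            ≤ D * (2 ^ (1 - s) * (K / s) * (v' - v) ^ s) + 2 * (k ^ (n + 1) * D)
          rcases eq_or_lt_of_le (hT0 i hi) with h0 | h0
          · have := hzero i hi h0.symm
            rw [← this, gam_self, gam_self, dist_self]
            have := mul_nonneg hD (mul_nonneg hc2 (Real.rpow_nonneg (sub_nonneg.2 hvv) s))
            have := mul_nonneg hkn hD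
            linarith
          · have h1 := (IH i hi).2.2.2.2 (v / t i) (v' / t i)
              (div_le_div_of_nonneg_right hvv h0.le)
            have h2 := hkey i hi h0 (2 ^ (1 - s) * (K / s)) (v' - v) hc2 (sub_nonneg.2 hvv)
            have e : v' / t i - v / t i = (v' - v) / t i := by ring
            rw [e] at h1
            have h3 := hkey2 i hi 2 zero_le_two
            nlinarith
        pK := by
          intro i hi
          have := hhK i hi
          calc dist (p i) (p (i + 1)) ≤ K * t i * D := this
            _ = K * D * t i := by ring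
        f0 := fun a ha => mul_nonneg hD (mul_nonneg hKs (Real.rpow_nonneg ha s))
        fm := by
          intro a b ha hab
          have := Real.rpow_le_rpow ha hab hs.le
          exact mul_le_mul_of_nonneg_left (mul_le_mul_of_nonneg_left this hKs) hD
        f1 := by
          intro a v ha hav hv
          have h := aux_f1 hs hs1 ha hav hv
          have h2 : D * (K / s) * (s * a + (v - a) ^ s) ≤ D * (K / s) * v ^ s :=
            mul_le_mul_of_nonneg_left h (mul_nonneg hD hKs)
          have e : K / s * s = K := div_mul_cancel₀ K hs.ne'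
          have e2 : D * (K / s) * (s * a) = K * D * a := by
            calc D * (K / s) * (s * a) = D * (K / s * s) * a := by ring
              _ = K * D * a := by rw [e]; ring
          show K * D * a + D * (K / s * (v - a) ^ s) ≤ D * (K / s * v ^ s)
          nlinarith
        F1 := by
          intro a b ha hb
          have h := aux_F1 hs hs1 ha hb
          have h2 : D * (K / s) * (a ^ s + b ^ s) ≤ D * (K / s) * (2 ^ (1 - s) * (a + b) ^ s) :=
            mul_le_mul_of_nonneg_left h (mul_nonneg hD hKs)
          show D * (K / s * a ^ s) + D * (K / s * b ^ s)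
            ≤ D * (2 ^ (1 - s) * (K / s) * (a + b) ^ s)
          nlinarith
        hB := mul_nonneg hkn hD
        BB := le_refl _ }
    have hG : ∀ u, Gam P T N (n + 1) x y u
        = cat p t (fun i v => Gam P T N n (p i) (p (i + 1)) (v / t i)) N u := by
      intro u
      simp only [Gam]
      rw [if_neg hxy]
    obtain ⟨c0, c1, cL, cR, cH⟩ := hcat
    rw [hT1] at c1 cR
    refine ⟨fun u hu => ?_, fun u hu => ?_, fun u hu => ?_, fun u hu => ?_, fun u v huv => ?_⟩
    · rw [hG, c0 u hu, hP0]
    · rw [hG, c1 u hu, hPN]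
    · have := cL u hu
      rw [hG]
      rw [hP0] at this
      calc _ ≤ _ := this
        _ = _ := by ring
    · have := cR u hu
      rw [hG]
      rw [hPN] at this
      calc _ ≤ _ := this
        _ = _ := by ring
    · have := cH u v huv
      rw [hG, hG]
      calc _ ≤ _ := this
        _ = _ := by ring

end Pool.Agent.Helper51.PZ
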